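import Pool.Agent.H95.EdgeRemoval.Proof

/-!
# The (x,y) edge-removal process stops at an (x,y) task-dependency graph w.h.p.
-/

open Filter Topology Pool.Agent.H95.EdgeRemoval

namespace Pool.Agent.Results.MP_f59edb_pr.EdgeRemovalLimit

/-- For all integers `x, y ≥ 1`, the probability that the `(x,y)` edge-removal process on `n`
vertices stops at an `(x,y)` task-dependency graph tends to `1` as `n → ∞`. -/
theorem result (x y : ℕ) (hx : 1 ≤ x) (hy : 1 ≤ y) :
    Tendsto (fun n : ℕ => (stopProb x y n).toReal) atTop (𝓝 1) :=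
  main x y hx hy

end Pool.Agent.Results.MP_f59edb_pr.EdgeRemovalLimit
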